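import Mathlib
import Pool.Agent.H916R2.Defs

/-!
# Coniveau of characters of Fermat varieties

The Fermat variety `X` of degree `m` and dimension `n` is the hypersurface
`x_0 ^ m + ... + x_(n+1) ^ m = 0`.  Its primitive middle cohomology `H^n(X, ℂ)` splits into lines
`V(s)` indexed by the tuples `s` of `n + 2` nonzero residues mod `m` with sum zero; everything
below depends only on the multiset.  The line `V(s)` has Hodge type `(p, q)`, where
`p + 1 = ∑ ⟨a / m⟩` (the sum of the fractional parts) and `p + q = n`, and the smallest Hodge
substructure of `H^n(X, ℚ)` whose complexification contains `V(s)` is the sum of the lines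
`V(t s)`, `t` a unit mod `m`.
-/

set_option autoImplicit false

namespace Pool.Agent.W546.Fermat

open Pool.Agent.H916R2

/-- The characters of the Fermat varieties of degree `m`: the nonempty multisets of nonzero residues
with sum zero.  The dimension of the Fermat variety is `|s| - 2`. -/
def IsCharacter (m : ℕ) (s : Multiset (ZMod m)) : Prop :=
  s ≠ 0 ∧ (0 : ZMod m) ∉ s ∧ s.sum = 0

/-- The number `p` such that the line `V(t s)` has Hodge type `(p, |s| - 2 - p)`: `m (p + 1)` is the
sum of the representatives in `{1, ..., m - 1}` of the residues `t * a`, `a ∈ s`. -/
def hodgeP (m : ℕ) (s : Multiset (ZMod m)) (t : (ZMod m)ˣ) : ℤ :=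
  (((s.map fun a => ((t : ZMod m) * a).val).sum / m : ℕ) : ℤ) - 1

/-- The level of the rational Hodge structure generated by `V(s)` is at most `l`: for all units `t`
the Hodge type `(p, q)` of `V(t s)` satisfies `|p - q| ≤ l`. -/
def LevelLE (m : ℕ) (s : Multiset (ZMod m)) (l : ℤ) : Prop :=
  ∀ t : (ZMod m)ˣ, |hodgeP m s t - ((Multiset.card s : ℤ) - 2 - hodgeP m s t)| ≤ l

/-- `Supported m c s`: the rational Hodge structure generated by `V(s)` is supported in codimension
`c`, by the following rules.
* `zero`: every character is supported in codimension `0`.
* `join`: `V(s + s')` is the image of `V(s) ⊗ V(s')` under the correspondence given by the lines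
  that join a point of the Fermat variety of `s` to a point of the Fermat variety of `s'` inside the
  Fermat variety of `s + s'`; this raises the codimension of the support by one.
* `transfer`: if the Hodge classes of the character `s' - s` (that is, `s'` together with the
  negatives of `s`) are algebraic then they give an algebraic correspondence of the Hodge
  structures of `s` and of `s'`, up to a Tate twist by `(|s'| - |s|) / 2 = c' - c`.  The
  algebraic Hodge classes are those generated by the Hodge classes of surfaces, by the points and by
  the cycles of Aoki and Shioda, see `Pool.Agent.H916R2.Generated`. -/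
inductive Supported (m : ℕ) : ℕ → Multiset (ZMod m) → Prop
  | zero (s : Multiset (ZMod m)) (hs : IsCharacter m s) : Supported m 0 s
  | join (c c' : ℕ) (s s' : Multiset (ZMod m)) (h : Supported m c s) (h' : Supported m c' s') :
      Supported m (c + c' + 1) (s + s')
  | transfer (c c' : ℕ) (s s' : Multiset (ZMod m)) (h : Supported m c s)
      (hs' : IsCharacter m s') (halg : Generated m (SurfaceCharacter m) (s' + s.map Neg.neg))
      (htwist : Multiset.card s' + 2 * c = Multiset.card s + 2 * c') :
      Supported m c' s'

/-- The character of degree `M`, a multiple of `m`, which is the pull back of the character `s` of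
degree `m` along the map `(x_i) ↦ (x_i ^ (M / m))` of Fermat varieties. -/
def pull (m M : ℕ) (s : Multiset (ZMod m)) : Multiset (ZMod M) :=
  s.map fun b => (((M / m) * b.val : ℕ) : ZMod M)

end Pool.Agent.W546.Fermat
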