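import Mathlib
import Pool.Agent.W546.Fermat.Defs
import Pool.Agent.H916R2.Families

/-!
# All characters are supported in the codimension predicted by their level
-/

set_option autoImplicit false
set_option linter.unusedSectionVars false
set_option linter.unusedVariables false

namespace Pool.Agent.W546.Fermat

open Pool.Agent.H916R2

variable {m : ℕ}

/-- the sum of the representatives -/
def total (m : ℕ) (s : Multiset (ZMod m)) (t : (ZMod m)ˣ) : ℕ :=
  (s.map fun a => ((t : ZMod m) * a).val).sum

theorem total_add (s s' : Multiset (ZMod m)) (t : (ZMod m)ˣ) :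
    total m (s + s') t = total m s t + total m s' t := by
  unfold total
  rw [Multiset.map_add, Multiset.sum_add]

theorem val_neg_add [NeZero m] {b : ZMod m} (hb : b ≠ 0) : (-b).val + b.val = m := by
  have : NeZero b := ⟨hb⟩
  have h1 := ZMod.val_neg_of_ne_zero b
  have h2 := ZMod.val_lt b
  omega

theorem total_neg [NeZero m] (s : Multiset (ZMod m)) (h0 : (0 : ZMod m) ∉ s) (t : (ZMod m)ˣ) :
    total m (s.map Neg.neg) t + total m s t = m * Multiset.card s := by
  unfold total
  induction s using Multiset.induction_on with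
  | empty => simp
  | cons a s ih =>
    have ha : a ≠ 0 := fun h => h0 (by rw [h]; exact Multiset.mem_cons_self _ _)
    have h1 := ih (fun h => h0 (Multiset.mem_cons_of_mem h))
    have h2 := val_neg_add (unit_mul_ne_zero t ha)
    simp only [Multiset.map_cons, Multiset.sum_cons, Multiset.card_cons]
    rw [mul_neg, mul_add, mul_one]
    omega

theorem total_neg_unit [NeZero m] (s : Multiset (ZMod m)) (h0 : (0 : ZMod m) ∉ s)
    (t : (ZMod m)ˣ) : total m s (-t) + total m s t = m * Multiset.card s := by
  rw [← total_neg s h0 t]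
  congr 1
  unfold total
  rw [Multiset.map_map]
  congr 1
  refine Multiset.map_congr rfl fun a _ => ?_
  rw [Function.comp_apply, Units.val_neg, neg_mul, mul_neg]

theorem dvd_total [NeZero m] (s : Multiset (ZMod m)) (hs : s.sum = 0) (t : (ZMod m)ˣ) :
    m ∣ total m s t := by
  have h1 : ((total m s t : ℕ) : ZMod m) = (t : ZMod m) * s.sum := by
    have h2 : (s.map fun a => (t : ZMod m) * a).sum = (t : ZMod m) * s.sum := by
      rw [Multiset.sum_map_mul_left, Multiset.map_id']
    rw [← h2]
    unfold total
    rw [Nat.cast_multiset_sum, Multiset.map_map]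
    congr 1
    refine Multiset.map_congr rfl fun a _ => ?_
    rw [Function.comp_apply, ZMod.natCast_zmod_val]
  rw [hs, mul_zero] at h1
  exact (ZMod.natCast_eq_zero_iff _ _).1 h1

theorem isHodge_iff (s : Multiset (ZMod m)) : IsHodge m s ↔ (0 : ZMod m) ∉ s ∧
    Even (Multiset.card s) ∧ s.sum = 0 ∧ ∀ t, 2 * total m s t = m * Multiset.card s := Iff.rfl

/-- The level in terms of the sums of representatives. -/
theorem levelLE_iff [NeZero m] {s : Multiset (ZMod m)} (hs : IsCharacter m s) (c : ℕ) :
    LevelLE m s ((Multiset.card s : ℤ) - 2 - 2 * c) ↔ ∀ t, m * (c + 1) ≤ total m s t := by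
  have hm : 0 < m := NeZero.pos m
  have hq : ∀ t, ∃ q, total m s t = m * q := fun t => dvd_total s hs.2.2 t
  have hP : ∀ t q, total m s t = m * q → hodgeP m s t = (q : ℤ) - 1 := by
    intro t q h
    unfold hodgeP
    unfold total at h
    rw [h, Nat.mul_div_cancel_left q hm]
  constructor
  · intro h t
    obtain ⟨q, hq1⟩ := hq t
    have h1 := h t
    rw [hP t q hq1, abs_le] at h1
    rw [hq1]
    exact Nat.mul_le_mul_left m (by omega)
  · intro h t
    obtain ⟨q, hq1⟩ := hq t
    obtain ⟨q', hq2⟩ := hq (-t)
    have h1 := h t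
    have h2 := h (-t)
    have h3 := total_neg_unit s hs.2.1 t
    rw [hq1] at h1
    rw [hq2] at h2
    rw [hq1, hq2, ← mul_add] at h3
    have h4 := Nat.eq_of_mul_eq_mul_left hm h3
    have h5 := Nat.le_of_mul_le_mul_left h1 hm
    have h6 := Nat.le_of_mul_le_mul_left h2 hm
    rw [hP t q hq1, abs_le]
    constructor <;> omega

/-- Every odd function with values in `{0, 1}` on the units comes from a Fermat curve. -/
def FullTypes (m : ℕ) : Prop :=
  ∀ f : (ZMod m)ˣ → ℕ, (∀ t, f t + f (-t) = 1) →
    ∃ s : Multiset (ZMod m), Multiset.card s = 3 ∧ (0 : ZMod m) ∉ s ∧ s.sum = 0 ∧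
      ∀ t, total m s t = m * (f t + 1)

theorem layers [NeZero m] (hfull : FullTypes m) (hne : ∀ t : (ZMod m)ˣ, t ≠ -t) (k : ℕ) :
    ∀ φ : (ZMod m)ˣ → ℕ, (∀ t, φ t + φ (-t) = k + 1) →
    ∃ s : Multiset (ZMod m), Multiset.card s = 3 * (k + 1) ∧ Supported m k s ∧
      (0 : ZMod m) ∉ s ∧ s.sum = 0 ∧ ∀ t, total m s t = m * (φ t + (k + 1)) := by
  have hchar : ∀ s : Multiset (ZMod m), Multiset.card s = 3 → (0 : ZMod m) ∉ s → s.sum = 0 →
      IsCharacter m s := by
    intro s h1 h2 h3
    refine ⟨?_, h2, h3⟩
    rintro rfl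
    simp at h1
  induction k with
  | zero =>
    intro φ hφ
    obtain ⟨s, h1, h2, h3, h4⟩ := hfull φ hφ
    exact ⟨s, by rw [h1], Supported.zero s (hchar s h1 h2 h3), h2, h3, h4⟩
  | succ k ih =>
    intro φ hφ
    classical
    let P : (ZMod m)ˣ → Prop := fun t => (t : ZMod m).val < ((-t : (ZMod m)ˣ) : ZMod m).val
    have hP : ∀ t, P (-t) ↔ ¬ P t := by
      intro t
      have h1 : (t : ZMod m).val ≠ ((-t : (ZMod m)ˣ) : ZMod m).val := by
        intro h
        exact hne t (Units.ext (ZMod.val_injective m h))
      simp only [P, neg_neg]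
      omega
    let f : (ZMod m)ˣ → ℕ := fun t => if P t then min 1 (φ t) else 1 - min 1 (φ (-t))
    have hf : ∀ t, f t + f (-t) = 1 := by
      intro t
      simp only [f, hP t, neg_neg]
      by_cases h : P t
      · simp only [h, if_true, not_true_eq_false, if_false]
        omega
      · simp only [h, if_false, not_false_eq_true, if_true]
        omega
    have hle : ∀ t, f t ≤ φ t := by
      intro t
      have h1 := hφ t
      simp only [f]
      split_ifs <;> omega
    obtain ⟨s, h1, h2, h3, h4⟩ := hfull f hf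
    obtain ⟨s', h1', hS', h2', h3', h4'⟩ := ih (fun t => φ t - f t) (by
      intro t
      have e1 := hφ t
      have e2 := hf t
      have e3 := hle t
      have e4 := hle (-t)
      omega)
    refine ⟨s' + s, ?_, ?_, ?_, ?_, ?_⟩
    · rw [Multiset.card_add, h1, h1']
      ring
    · exact Supported.join k 0 s' s hS' (Supported.zero s (hchar s h1 h2 h3))
    · rw [Multiset.mem_add, not_or]
      exact ⟨h2', h2⟩
    · rw [Multiset.sum_add, h3, h3', add_zero]
    · intro t
      rw [total_add, h4, h4', ← mul_add]
      congr 1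
      have e3 := hle t
      omega

/-- **Main theorem for one degree.** -/
theorem main [NeZero m] (hfull : FullTypes m) (hne : ∀ t : (ZMod m)ˣ, t ≠ -t)
    (hgen : ∀ s : Multiset (ZMod m), IsHodge m s → s ≠ 0 → Generated m (SurfaceCharacter m) s)
    {s : Multiset (ZMod m)} (hs : IsCharacter m s) (c : ℕ)
    (hc : ∀ t, m * (c + 1) ≤ total m s t) : Supported m c s := by
  have hm : 0 < m := NeZero.pos m
  have hq : ∀ t, ∃ q, total m s t = m * q := fun t => dvd_total s hs.2.2 t
  choose q hq using hq
  have h1 : ∀ t, q t + q (-t) = Multiset.card s := by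
    intro t
    have h2 := total_neg_unit s hs.2.1 t
    rw [hq, hq, ← mul_add] at h2
    have h3 := Nat.eq_of_mul_eq_mul_left hm h2
    omega
  have h2 : ∀ t, c + 1 ≤ q t := by
    intro t
    have h3 := hc t
    rw [hq] at h3
    exact Nat.le_of_mul_le_mul_left h3 hm
  obtain ⟨k, hk⟩ : ∃ k, Multiset.card s = k + 2 * (c + 1) :=
    ⟨Multiset.card s - 2 * (c + 1), by
      have e1 := h1 1
      have e2 := h2 1
      have e3 := h2 (-1)
      omega⟩
  rcases Nat.eq_zero_or_pos k with rfl | hk0
  · -- the Hodge case
    have hodge : IsHodge m s := by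
      refine (isHodge_iff s).2 ⟨hs.2.1, ⟨c + 1, by omega⟩, hs.2.2, fun t => ?_⟩
      have e1 := h1 t
      have e2 := h2 t
      have e3 := h2 (-t)
      have e4 : q t = c + 1 := by omega
      rw [hq, e4, hk]
      ring
    -- a pair
    obtain ⟨a, ha⟩ : ∃ a, a ∈ s := Multiset.exists_mem_of_ne_zero hs.1
    have ha0 : a ≠ 0 := fun h => hs.2.1 (h ▸ ha)
    have hp : IsCharacter m {a, -a} := by
      refine ⟨by simp, ?_, by simp⟩
      simp only [Multiset.insert_eq_cons, Multiset.mem_cons, Multiset.mem_singleton, not_or]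
      exact ⟨Ne.symm ha0, Ne.symm (neg_ne_zero.mpr ha0)⟩
    refine Supported.transfer 0 c _ s (Supported.zero _ hp) hs ?_ ?_
    · have e1 : ({a, -a} : Multiset (ZMod m)).map Neg.neg = {-a, -(-a)} := by simp
      rw [e1]
      exact Generated.join _ _ (hgen s hodge hs.1) (Generated.pair (-a) (neg_ne_zero.mpr ha0))
    · simp only [Multiset.insert_eq_cons, Multiset.card_cons, Multiset.card_singleton]
      omega
  · obtain ⟨k, rfl⟩ : ∃ j, k = j + 1 := ⟨k - 1, by omega⟩
    obtain ⟨s', g1, g2, g3, g4, g5⟩ := layers hfull hne k (fun t => q t - (c + 1)) (by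
      intro t
      have e1 := h1 t
      have e2 := h2 t
      have e3 := h2 (-t)
      omega)
    refine Supported.transfer k c s' s g2 hs (hgen _ ?_ ?_) ?_
    · refine (isHodge_iff _).2 ⟨?_, ?_, ?_, fun t => ?_⟩
      · rw [Multiset.mem_add, not_or]
        refine ⟨hs.2.1, fun h => ?_⟩
        obtain ⟨b, hb, hb0⟩ := Multiset.mem_map.1 h
        rw [neg_eq_zero] at hb0
        exact g3 (hb0 ▸ hb)
      · rw [Multiset.card_add, Multiset.card_map, g1, hk]
        exact ⟨2 * (k + 1) + (c + 1), by ring⟩
      · rw [Multiset.sum_add, hs.2.2, Multiset.sum_map_neg, Multiset.map_id', g4, neg_zero,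
          add_zero]
      · have e1 := total_neg s' g3 t
        rw [g5, g1] at e1
        have e2 := h2 t
        have e3 := h2 (-t)
        have e4 := h1 t
        have e5 : total m (s'.map Neg.neg) t = m * (3 * (k + 1) - (q t - (c + 1) + (k + 1))) := by
          rw [Nat.mul_sub]
          omega
        rw [total_add, hq, e5, ← mul_add, Multiset.card_add, Multiset.card_map, g1, hk,
          ← mul_assoc, mul_comm 2 m, mul_assoc]
        congr 1
        omega
    · intro h
      rw [add_eq_zero] at h
      exact hs.1 h.1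
    · rw [g1, hk]
      ring

/-- The generated characters are Hodge characters. -/
theorem isHodge_of_generated [NeZero m] {s : Multiset (ZMod m)}
    (h : Generated m (SurfaceCharacter m) s) : IsHodge m s := by
  have hgood := Generated.good (fun s (hs : SurfaceCharacter m s) => ⟨hs.1.1, hs.1.2.1⟩) h
  refine isHodge_of_saw hgood.1 hgood.2 fun t => ?_
  induction h with
  | ofBase s hs => exact hs.1.saw_sum t
  | pair a ha =>
    simp only [Multiset.insert_eq_cons, Multiset.map_cons, Multiset.map_singleton,
      Multiset.sum_cons, Multiset.sum_singleton, mul_neg, saw_neg]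
    ring
  | standard p hp hp2 hpm a ha =>
    have h1 := saw_dist (Nat.mul_div_cancel' hpm) ((t : ZMod m) * a)
    have h2 := coset_sum_unit (m := m) (fun x => saw x) (Nat.mul_div_cancel' hpm) t a
    have h3 : (((Multiset.range p).map fun i : ℕ =>
        a + (i : ZMod m) * ((m / p : ℕ) : ZMod m)).map fun a => saw ((t : ZMod m) * a)).sum =
        ∑ i ∈ Finset.range p, saw ((t : ZMod m) * (a + (i : ZMod m) * ((m / p : ℕ) : ZMod m))) := by
      rw [Multiset.map_map]
      rfl
    rw [Multiset.map_cons, Multiset.sum_cons, h3, h2, h1, mul_neg, saw_neg, mul_left_comm]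
    ring
  | standardTwo hm a ha =>
    have h1 := saw_dist (Nat.mul_div_cancel' hm) ((t : ZMod m) * a)
    have h2 := coset_sum_unit (m := m) (fun x => saw x) (Nat.mul_div_cancel' hm) t a
    have h3 : saw ((t : ZMod m) * ((m / 2 : ℕ) : ZMod m)) = 0 := by
      refine saw_half ?_
      have h4 : ((2 * (m / 2) : ℕ) : ZMod m) = 0 := by
        rw [Nat.mul_div_cancel' hm]
        simp
      push_cast at h4
      linear_combination (t : ZMod m) * h4
    rw [h1] at h2
    simp only [Finset.sum_range_succ, Finset.sum_range_zero, Nat.cast_zero, zero_mul, add_zero,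
      zero_add, Nat.cast_one, one_mul, Nat.cast_ofNat] at h2
    simp only [Multiset.insert_eq_cons, Multiset.map_cons, Multiset.map_singleton,
      Multiset.sum_cons, Multiset.sum_singleton, mul_neg, saw_neg, h3]
    have h5 : (t : ZMod m) * (2 * a) = 2 * ((t : ZMod m) * a) := by ring
    rw [h5]
    linarith
  | join s s' hs hs' ihs ihs' =>
    rw [Multiset.map_add, Multiset.sum_add,
      ihs (Generated.good (fun s (hs : SurfaceCharacter m s) => ⟨hs.1.1, hs.1.2.1⟩) hs),
      ihs' (Generated.good (fun s (hs : SurfaceCharacter m s) => ⟨hs.1.1, hs.1.2.1⟩) hs'), add_zero]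
  | cancel a s h ih =>
    have h1 := ih (Generated.good (fun s (hs : SurfaceCharacter m s) => ⟨hs.1.1, hs.1.2.1⟩) h)
    simp only [Multiset.map_cons, Multiset.sum_cons, mul_neg, saw_neg] at h1
    linarith

/-- The rules are sound for the level. -/
theorem sound [NeZero m] {c : ℕ} {s : Multiset (ZMod m)} (h : Supported m c s) :
    IsCharacter m s ∧ ∀ t, m * (c + 1) ≤ total m s t := by
  induction h with
  | zero s hs =>
    refine ⟨hs, fun t => ?_⟩
    obtain ⟨q, hq⟩ := dvd_total s hs.2.2 t
    rcases Nat.eq_zero_or_pos q with rfl | h0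
    · exfalso
      rw [mul_zero] at hq
      obtain ⟨a, ha⟩ := Multiset.exists_mem_of_ne_zero hs.1
      have ha0 : a ≠ 0 := fun h => hs.2.1 (h ▸ ha)
      have h1 : ((t : ZMod m) * a).val ≤ total m s t :=
        Multiset.single_le_sum (fun _ _ => Nat.zero_le _) _
          (Multiset.mem_map_of_mem (fun a => ((t : ZMod m) * a).val) ha)
      rw [hq, Nat.le_zero, ZMod.val_eq_zero] at h1
      exact unit_mul_ne_zero t ha0 h1
    · rw [hq]
      exact Nat.mul_le_mul_left m (by omega)
  | join c c' s s' _ _ ih ih' =>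
    refine ⟨⟨?_, ?_, ?_⟩, fun t => ?_⟩
    · intro h
      rw [add_eq_zero] at h
      exact ih.1.1 h.1
    · rw [Multiset.mem_add, not_or]
      exact ⟨ih.1.2.1, ih'.1.2.1⟩
    · rw [Multiset.sum_add, ih.1.2.2, ih'.1.2.2, add_zero]
    · rw [total_add]
      have h1 := ih.2 t
      have h2 := ih'.2 t
      have h3 : m * (c + c' + 1 + 1) = m * (c + 1) + m * (c' + 1) := by ring
      omega
  | transfer c c' s s' _ hs' halg htw ih =>
    refine ⟨hs', fun t => ?_⟩
    have h1 := (isHodge_of_generated halg).2.2.2 t
    change 2 * total m (s' + s.map Neg.neg) t = _ at h1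
    have h2 := total_neg s ih.1.2.1 t
    have h3 := ih.2 t
    rw [total_add, Multiset.card_add, Multiset.card_map] at h1
    have h4 : m * (Multiset.card s' + 2 * c) = m * (Multiset.card s + 2 * c') := by rw [htw]
    have e1 : m * (Multiset.card s' + Multiset.card s) =
      m * Multiset.card s' + m * Multiset.card s := by ring
    have e2 : m * (Multiset.card s' + 2 * c) = m * Multiset.card s' + 2 * (m * c) := by ring
    have e3 : m * (Multiset.card s + 2 * c') = m * Multiset.card s + 2 * (m * c') := by ring
    have e4 : m * (c + 1) = m * c + m := by ring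
    have e5 : m * (c' + 1) = m * c' + m := by ring
    omega

end Pool.Agent.W546.Fermat
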